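import Pool.Agent.Q59.RL.Tate2

/-!
# Characters of algebraic classes with the same parities
-/

namespace Pool.Agent.Q59.NH

open Pool.Agent.Q59.RL Pool.Agent.Q59.FS
open Pool.Agent.H916T (IsTate SurfaceTate Standard)
open Pool.Agent.H916Z (Link ZBase)

/-- the closure properties of the family of the characters of algebraic classes, without duality -/
structure Closed (p : ℕ) (A : ∀ M : ℕ, Multiset (ZMod M) → Prop) : Prop where
  pair : ∀ M, 0 < M → p.Coprime M → ∀ a : ZMod M, a ≠ 0 → A M {a, -a}
  surface : ∀ M, 0 < M → p.Coprime M → ∀ s, SurfaceTate p M s → A M s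
  standard : ∀ M, 0 < M → p.Coprime M → ∀ q : ℕ, q.Prime → q ∣ M → ∀ s, Standard q M s → A M s
  join : ∀ M, 0 < M → p.Coprime M → ∀ s t, A M s → A M t → A M (s + t)
  cancel : ∀ M, 0 < M → p.Coprime M → ∀ a s, A M (a ::ₘ -a ::ₘ s) → A M s
  descend : ∀ M N, 0 < M → 0 < N → p.Coprime M → p.Coprime N → ∀ s : Multiset (ZMod M),
    A (N * M) (s.map fun a => ((N * a.val : ℕ) : ZMod (N * M))) → A M s

variable {p : ℕ} {A : ∀ M : ℕ, Multiset (ZMod M) → Prop} {m : ℕ} [NeZero m]

lemma Closed.gen (hA : Closed p A) {M : ℕ} (hM : 0 < M) (hpM : p.Coprime M) {s : Multiset (ZMod M)}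
    (h : Pool.Agent.H916T.Generated M (ZBase p M) s) : A M s := by
  induction h with
  | ofBase s hs =>
    rcases hs with h | ⟨q, hq, hqM, h⟩
    · exact hA.surface M hM hpM s h
    · exact hA.standard M hM hpM q hq hqM s h
  | pair a ha => exact hA.pair M hM hpM a ha
  | join s t _ _ ihs iht => exact hA.join M hM hpM s t ihs iht
  | cancel a s _ ih => exact hA.cancel M hM hpM a s ih

open scoped Classical in
lemma Closed.parity (hA : Closed p A) (hp : p.Prime) (hpm : p.Coprime m)
    {s : Multiset (ZMod m)} (hs : IsTate p m s) (hne : s ≠ 0)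
    (hpar : ∀ a : ZMod m, Even (s.countP fun b => Relation.EqvGen (Link p) a b)) : A m s := by
  obtain ⟨N, hN, hpN, H⟩ := Pool.Agent.H916Y.parity_main hp (NeZero.pos m) hpm hs hne hpar
  refine hA.descend m N (NeZero.pos m) hN hpm hpN s ?_
  exact hA.gen (Nat.mul_pos hN (NeZero.pos m)) (Nat.Coprime.mul_right hpN hpm) (H (N * m) rfl)

/-- removal of pairs -/
lemma Closed.cancel_all (hA : Closed p A) (hpm : p.Coprime m) (x : Multiset (ZMod m)) :
    ∀ y : Multiset (ZMod m), A m (x + (y + y.map fun a => -a)) → A m x := by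
  intro y
  induction y using Multiset.induction_on with
  | empty => intro h; simpa using h
  | cons a y ih =>
    intro h
    refine ih (hA.cancel m (NeZero.pos m) hpm a _ ?_)
    rw [Multiset.map_cons] at h
    have h1 : x + (a ::ₘ y + -a ::ₘ y.map fun a => -a) =
        a ::ₘ -a ::ₘ (x + (y + y.map fun a => -a)) := by
      rw [← Multiset.singleton_add a y, ← Multiset.singleton_add (-a) (y.map fun a => -a),
        ← Multiset.singleton_add a, ← Multiset.singleton_add (-a)]
      abel
    rw [← h1]
    exact h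

/-- **Membership depends only on the parities.** -/
theorem Closed.congr (hA : Closed p A) (hp : p.Prime) (hpm : p.Coprime m)
    {s s' : Multiset (ZMod m)} (hs : IsTate p m s) (hs' : IsTate p m s') (hne : s' ≠ 0)
    (hpar : ∀ c : Cls p m, par p s c = par p s' c) (h : A m s) : A m s' := by
  classical
  have h1 : A m (s' + s.map fun a => -a) := by
    refine hA.parity hp hpm (IsTate.add hs' (hs.neg hpm)) ?_ fun a => ?_
    · intro h0
      have h2 := congrArg Multiset.card h0
      rw [Multiset.card_add, Multiset.card_zero] at h2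
      exact hne (Multiset.card_eq_zero.mp (by omega))
    · have h2 := par_countP (p := p) (s' + s.map fun a => -a) a
      rw [par_add, show (s.map fun a => -a) = s.map Neg.neg from rfl, par_neg hs.1, hpar,
        two_self] at h2
      exact even_iff_two_dvd.mpr ((ZMod.natCast_eq_zero_iff _ _).mp h2.symm)
  refine hA.cancel_all hpm s' s ?_
  have h2 := hA.join m (NeZero.pos m) hpm _ _ h1 h
  have h3 : s' + (s + s.map fun a => -a) = s' + (s.map fun a => -a) + s := by abel
  rw [h3]
  exact h2

omit [NeZero m] in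
/-- the parities of a conjugate -/
lemma par_unit (t : (ZMod m)ˣ) {s : Multiset (ZMod m)} (h0 : (0 : ZMod m) ∉ s) (c : Cls p m) :
    par p (s.map fun a => (t : ZMod m) * a) c = par p s c := by
  classical
  unfold par
  rw [Multiset.map_map]
  congr 1
  refine Multiset.map_congr rfl fun b hb => ?_
  have hb0 : b ≠ 0 := fun h => h0 (h ▸ hb)
  have htb : (t : ZMod m) * b ≠ 0 := fun h => hb0 ((t.isUnit.mul_right_eq_zero).mp h)
  have hord : addOrderOf ((t : ZMod m) * b) = addOrderOf b := by
    refine Nat.dvd_antisymm ?_ ?_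
    · rw [addOrderOf_dvd_iff_nsmul_eq_zero, nsmul_eq_mul, mul_left_comm, ← nsmul_eq_mul,
        addOrderOf_nsmul_eq_zero, mul_zero]
    · rw [addOrderOf_dvd_iff_nsmul_eq_zero]
      have h1 : (t : ZMod m) * (addOrderOf ((t : ZMod m) * b) • b) = 0 := by
        rw [nsmul_eq_mul, mul_left_comm, ← nsmul_eq_mul, addOrderOf_nsmul_eq_zero]
      exact (t.isUnit.mul_right_eq_zero).mp h1
  have h1 : (Quot.mk _ ((t : ZMod m) * b) : Cls p m) = Quot.mk _ b :=
    Quot.sound ⟨htb, hb0, Or.inl (by rw [hord])⟩
  simp only [Function.comp_apply, h1]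

omit [NeZero m] in
/-- the conjugates of a Tate character -/
lemma isTate_unit (t : (ZMod m)ˣ) {s : Multiset (ZMod m)} (hs : IsTate p m s) :
    IsTate p m (s.map fun a => (t : ZMod m) * a) := by
  refine ⟨?_, ?_, ?_, fun u => ?_⟩
  · intro h
    obtain ⟨b, hb, h1⟩ := Multiset.mem_map.mp h
    have hb0 : b = 0 := (t.isUnit.mul_right_eq_zero).mp h1
    exact hs.1 (hb0 ▸ hb)
  · rw [Multiset.card_map]; exact hs.2.1
  · rw [Multiset.sum_map_mul_left, Multiset.map_id', hs.2.2.1, mul_zero]
  · have h1 := hs.2.2.2 (u * t)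
    rw [Multiset.card_map, ← h1]
    congr 1
    refine Finset.sum_congr rfl fun j _ => ?_
    rw [Multiset.map_map]
    congr 1
    refine Multiset.map_congr rfl fun b _ => ?_
    rw [Function.comp_apply, Units.val_mul]
    ring_nf

/-- **The family is stable under the Galois group.** -/
theorem Closed.unit (hA : Closed p A) (hp : p.Prime) (hpm : p.Coprime m)
    {s : Multiset (ZMod m)} (hs : IsTate p m s) (hne : s ≠ 0) (t : (ZMod m)ˣ) :
    A m (s.map fun a => (t : ZMod m) * a) ↔ A m s := by
  constructor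
  · intro h
    exact hA.congr hp hpm (isTate_unit t hs) hs hne (fun c => par_unit t hs.1 c) h
  · intro h
    refine hA.congr hp hpm hs (isTate_unit t hs) ?_ (fun c => (par_unit t hs.1 c).symm) h
    intro h0
    exact hne (Multiset.map_eq_zero.mp h0)

/-- duality -/
theorem Closed.neg (hA : Closed p A) (hp : p.Prime) (hpm : p.Coprime m)
    {s : Multiset (ZMod m)} (hs : IsTate p m s) (hne : s ≠ 0) :
    A m (s.map fun a => -a) ↔ A m s := by
  have h1 := hA.unit hp hpm hs hne (-1)
  have h2 : (s.map fun a => ((-1 : (ZMod m)ˣ) : ZMod m) * a) = s.map fun a => -a :=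
    Multiset.map_congr rfl fun a _ => by
      rw [Units.val_neg, Units.val_one, neg_one_mul]
  rwa [h2] at h1

end Pool.Agent.Q59.NH
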